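import Mathlib

/-!
The restricted enveloping algebra of the two-dimensional nonabelian restricted Lie algebra in
characteristic `p`.
-/

open TensorProduct

namespace Pool.Agent.Work.MP_2a0e18_al.AllP

variable (k : Type) [Field k] (p : ℕ)

/-- The defining relations. -/
inductive Rel : FreeAlgebra k Bool → FreeAlgebra k Bool → Prop
  | tt : Rel (FreeAlgebra.ι k true ^ p) (FreeAlgebra.ι k true)
  | xx : Rel (FreeAlgebra.ι k false ^ p) 0
  | tx : Rel (FreeAlgebra.ι k true * FreeAlgebra.ι k false)
      (FreeAlgebra.ι k false * FreeAlgebra.ι k true + FreeAlgebra.ι k false)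

/-- The algebra. -/
def U : Type := RingQuot (Rel k p)

noncomputable instance : Ring (U k p) := inferInstanceAs (Ring (RingQuot (Rel k p)))
noncomputable instance : Algebra k (U k p) := inferInstanceAs (Algebra k (RingQuot (Rel k p)))

/-- The quotient map. -/
noncomputable def mk : FreeAlgebra k Bool →ₐ[k] U k p := RingQuot.mkAlgHom k (Rel k p)

/-- The toral generator. -/
noncomputable def t : U k p := mk k p (FreeAlgebra.ι k true)

/-- The nilpotent generator. -/
noncomputable def x : U k p := mk k p (FreeAlgebra.ι k false)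

/-- The relations in an arbitrary ring. -/
structure Good {B : Type*} [Ring B] (a b : B) : Prop where
  tt : a ^ p = a
  xx : b ^ p = 0
  tx : a * b = b * a + b

lemma good_tx : Good p (t k p) (x k p) where
  tt := by
    have := RingQuot.mkAlgHom_rel k (Rel.tt (k := k) (p := p))
    rw [map_pow] at this
    exact this
  xx := by
    have := RingQuot.mkAlgHom_rel k (Rel.xx (k := k) (p := p))
    rw [map_pow, map_zero] at this
    exact this
  tx := by
    have := RingQuot.mkAlgHom_rel k (Rel.tx (k := k) (p := p))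
    rw [map_add, map_mul, map_mul] at this
    exact this

variable {k p}

lemma lift_ok {B : Type*} [Ring B] [Algebra k B] {a b : B} (h : Good p a b) :
    ∀ ⦃u v⦄, Rel k p u v → FreeAlgebra.lift k (fun c => if c then a else b) u =
      FreeAlgebra.lift k (fun c => if c then a else b) v := by
  intro u v huv
  cases huv
  · simpa using h.tt
  · simpa using h.xx
  · simpa using h.tx

/-- The universal property. -/
noncomputable def lift {B : Type*} [Ring B] [Algebra k B] {a b : B} (h : Good p a b) :
    U k p →ₐ[k] B :=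
  RingQuot.liftAlgHom k ⟨FreeAlgebra.lift k fun c => if c then a else b, lift_ok h⟩

@[simp] lemma lift_t {B : Type*} [Ring B] [Algebra k B] {a b : B} (h : Good p a b) :
    lift (k := k) h (t k p) = a :=
  (RingQuot.liftAlgHom_mkAlgHom_apply k (s := Rel k p) _ (lift_ok h)
    (FreeAlgebra.ι k true)).trans (by simp)

@[simp] lemma lift_x {B : Type*} [Ring B] [Algebra k B] {a b : B} (h : Good p a b) :
    lift (k := k) h (x k p) = b :=
  (RingQuot.liftAlgHom_mkAlgHom_apply k (s := Rel k p) _ (lift_ok h)
    (FreeAlgebra.ι k false)).trans (by simp)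

lemma hom_ext {B : Type*} [Semiring B] [Algebra k B] {f g : U k p →ₐ[k] B}
    (ht : f (t k p) = g (t k p)) (hx : f (x k p) = g (x k p)) : f = g := by
  refine RingQuot.ringQuot_ext' k (s := Rel k p) f g ?_
  ext c
  cases c
  · exact hx
  · exact ht

lemma ind {Q : U k p → Prop} (h0 : ∀ r, Q (algebraMap k _ r)) (ht : Q (t k p)) (hx : Q (x k p))
    (hm : ∀ a b, Q a → Q b → Q (a * b)) (ha : ∀ a b, Q a → Q b → Q (a + b)) (u : U k p) : Q u := by
  obtain ⟨a, rfl⟩ := RingQuot.mkAlgHom_surjective k (Rel k p) u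
  change Q (mk k p a)
  induction a using FreeAlgebra.induction with
  | grade0 r =>
    rw [AlgHom.commutes]
    exact h0 r
  | grade1 c =>
    cases c
    · exact hx
    · exact ht
  | mul a b h1 h2 =>
    rw [map_mul]
    exact hm _ _ h1 h2
  | add a b h1 h2 =>
    rw [map_add]
    exact ha _ _ h1 h2

lemma comm_pow {B : Type*} [Ring B] {a b : B} (h : a * b = b * a + b) (i : ℕ) :
    a * b ^ i = b ^ i * a + i • b ^ i := by
  induction i with
  | zero => simp
  | succ i ih =>
    rw [pow_succ, ← mul_assoc, ih, add_mul, mul_assoc, h, mul_add, succ_nsmul, smul_mul_assoc,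
      ← mul_assoc]
    abel

variable [hp : Fact p.Prime]

instance : FiniteDimensional k (U k p) := by
  let M := Submodule.span k (Set.range fun z : Fin p × Fin p => x k p ^ z.1.1 * t k p ^ z.2.1)
  have g := good_tx k p
  have h2 := hp.out.two_le
  have hmem : ∀ j i : ℕ, x k p ^ i * t k p ^ j ∈ M := by
    intro j
    induction j using Nat.strong_induction_on with
    | _ j ih =>
      intro i
      by_cases hi : i < p
      · by_cases hj : j < p
        · exact Submodule.subset_span ⟨(⟨i, hi⟩, ⟨j, hj⟩), rfl⟩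
        · obtain ⟨l, rfl⟩ := Nat.exists_eq_add_of_le (not_lt.1 hj)
          rw [pow_add, g.tt, ← pow_succ']
          exact ih _ (by omega) i
      · rw [pow_eq_zero_of_le (not_lt.1 hi) g.xx, zero_mul]
        exact M.zero_mem
  have gen : ∀ a : U k p, (∀ i j : ℕ, a * (x k p ^ i * t k p ^ j) ∈ M) → ∀ m ∈ M, a * m ∈ M := by
    intro a ha m hm
    induction hm using Submodule.span_induction with
    | mem y hy =>
      obtain ⟨z, rfl⟩ := hy
      exact ha _ _
    | zero => simp
    | add y z _ _ hy hz =>
      rw [mul_add]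
      exact M.add_mem hy hz
    | smul r y _ hy =>
      rw [mul_smul_comm]
      exact M.smul_mem r hy
  have key : ∀ a : U k p, ∀ m ∈ M, a * m ∈ M := by
    refine ind (fun r m hm => ?_) (gen _ fun i j => ?_) (gen _ fun i j => ?_)
      (fun a b ha hb m hm => ?_) fun a b ha hb m hm => ?_
    · rw [← Algebra.smul_def]
      exact M.smul_mem r hm
    · rw [← mul_assoc, comm_pow g.tx, add_mul, mul_assoc, ← pow_succ', smul_mul_assoc]
      exact M.add_mem (hmem _ _) (nsmul_mem (hmem _ _) _)
    · rw [← mul_assoc, ← pow_succ']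
      exact hmem _ _
    · rw [mul_assoc]
      exact ha _ (hb m hm)
    · rw [add_mul]
      exact M.add_mem (ha m hm) (hb m hm)
  have top : M = ⊤ := Submodule.eq_top_iff'.2 fun u => by
    simpa using key u _ (hmem 0 0)
  exact Module.Finite.of_fg_top (top ▸ Submodule.fg_span (Set.finite_range _))

variable [CharP k p]

variable (k) in
lemma frob {B : Type*} [Ring B] [Algebra k B] {a b : B} (h : Commute a b) :
    (a + b) ^ p = a ^ p + b ^ p := by
  obtain ⟨r, hr⟩ := h.exists_add_pow_prime_eq hp.out
  have e : (p : B) = 0 := by rw [← map_natCast (algebraMap k B), CharP.cast_eq_zero, map_zero]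
  rw [hr, e]
  simp

variable (k) in
lemma frob_neg {B : Type*} [Ring B] [Algebra k B] (a : B) : (-a) ^ p = -a ^ p := by
  have h := frob k (p := p) (Commute.refl a).neg_right
  rw [add_neg_cancel, zero_pow hp.out.ne_zero] at h
  exact (neg_eq_of_add_eq_zero_right h.symm).symm

omit hp [CharP k p] in
lemma comm_tm (a b : U k p) : Commute (a ⊗ₜ[k] (1 : U k p)) (1 ⊗ₜ[k] b) := by
  simp [Commute, SemiconjBy]

lemma good_comul : Good p (t k p ⊗ₜ[k] (1 : U k p) + 1 ⊗ₜ[k] t k p)
    (x k p ⊗ₜ[k] (1 : U k p) + 1 ⊗ₜ[k] x k p) where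
  tt := by
    rw [frob k (comm_tm _ _)]
    simp [Algebra.TensorProduct.tmul_pow, (good_tx k p).tt]
  xx := by
    rw [frob k (comm_tm _ _)]
    simp [Algebra.TensorProduct.tmul_pow, (good_tx k p).xx]
  tx := by
    simp only [mul_add, add_mul, Algebra.TensorProduct.tmul_mul_tmul, mul_one, one_mul,
      (good_tx k p).tx, add_tmul, tmul_add]
    abel

omit [CharP k p] in
lemma good_zero : Good p (0 : k) 0 := ⟨zero_pow hp.out.ne_zero, zero_pow hp.out.ne_zero, by simp⟩

lemma good_op : Good p (MulOpposite.op (-t k p)) (MulOpposite.op (-x k p)) where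
  tt := by rw [← MulOpposite.op_pow, frob_neg k, (good_tx k p).tt]
  xx := by rw [← MulOpposite.op_pow, frob_neg k, (good_tx k p).xx, neg_zero, MulOpposite.op_zero]
  tx := by
    rw [← MulOpposite.op_mul, ← MulOpposite.op_mul, ← MulOpposite.op_add, neg_mul_neg, neg_mul_neg,
      (good_tx k p).tx, add_neg_cancel_right]

noncomputable instance : Bialgebra k (U k p) :=
  Bialgebra.ofAlgHom (lift good_comul) (lift good_zero)
    (hom_ext
      (by simp [Algebra.TensorProduct.one_def, add_tmul, tmul_add, add_assoc])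
      (by simp [Algebra.TensorProduct.one_def, add_tmul, tmul_add, add_assoc]))
    (hom_ext (by simp) (by simp))
    (hom_ext (by simp) (by simp))

lemma comul_eq (a : U k p) : Coalgebra.comul (R := k) a = lift good_comul a := rfl
lemma counit_eq (a : U k p) : Coalgebra.counit (R := k) a = lift (k := k) good_zero a := rfl

/-- The antipode. -/
noncomputable def S : U k p →ₗ[k] U k p :=
  (MulOpposite.opLinearEquiv k).symm.toLinearMap ∘ₗ (lift (k := k) good_op).toLinearMap

lemma S_one : S (1 : U k p) = 1 := by simp [S]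
lemma S_t : S (t k p) = -t k p := by simp [S]
lemma S_x : S (x k p) = -x k p := by simp [S]
lemma S_mul (a b : U k p) : S (a * b) = S b * S a := by simp [S]

lemma left_gen {g : U k p} (hg : S g = -g) (z : U k p ⊗[k] U k p) :
    LinearMap.mul' k (U k p) (S.rTensor (U k p) ((g ⊗ₜ[k] 1 + 1 ⊗ₜ[k] g) * z)) = 0 := by
  induction z using TensorProduct.induction_on with
  | zero => simp
  | tmul u v => simp [add_mul, S_mul, hg, mul_assoc]
  | add y z hy hz => rw [mul_add, map_add, map_add, hy, hz, add_zero]

lemma right_gen {g : U k p} (hg : S g = -g) (z : U k p ⊗[k] U k p) :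
    LinearMap.mul' k (U k p) (S.lTensor (U k p) (z * (g ⊗ₜ[k] 1 + 1 ⊗ₜ[k] g))) = 0 := by
  induction z using TensorProduct.induction_on with
  | zero => simp
  | tmul u v => simp [mul_add, S_mul, hg, mul_assoc]
  | add y z hy hz => rw [add_mul, map_add, map_add, hy, hz, add_zero]

lemma left_all (a : U k p) : ∀ z : U k p ⊗[k] U k p,
    LinearMap.mul' k (U k p) (S.rTensor (U k p) (lift (k := k) (good_comul (k := k)) a * z)) =
      lift (k := k) (good_zero (k := k)) a • LinearMap.mul' k (U k p) (S.rTensor (U k p) z) := by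
  induction a using ind with
  | h0 r => intro z; rw [AlgHom.commutes, AlgHom.commutes, ← Algebra.smul_def, map_smul, map_smul]; rfl
  | ht => intro z; rw [lift_t, lift_t, left_gen S_t, zero_smul]
  | hx => intro z; rw [lift_x, lift_x, left_gen S_x, zero_smul]
  | hm a b ha hb => intro z; rw [map_mul _ a b, map_mul _ a b, mul_assoc, ha, hb, mul_smul]
  | ha a b ha hb => intro z; rw [map_add, map_add, add_mul, map_add, map_add, ha, hb, add_smul]

lemma right_all (a : U k p) : ∀ z : U k p ⊗[k] U k p,
    LinearMap.mul' k (U k p) (S.lTensor (U k p) (z * lift (k := k) (good_comul (k := k)) a)) =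
      lift (k := k) (good_zero (k := k)) a • LinearMap.mul' k (U k p) (S.lTensor (U k p) z) := by
  induction a using ind with
  | h0 r =>
    intro z
    rw [AlgHom.commutes, AlgHom.commutes, ← Algebra.commutes, ← Algebra.smul_def, map_smul, map_smul]
    rfl
  | ht => intro z; rw [lift_t, lift_t, right_gen S_t, zero_smul]
  | hx => intro z; rw [lift_x, lift_x, right_gen S_x, zero_smul]
  | hm a b ha hb => intro z; rw [map_mul _ a b, map_mul _ a b, ← mul_assoc, hb, ha, mul_comm, mul_smul]
  | ha a b ha hb => intro z; rw [map_add, map_add, mul_add, map_add, map_add, ha, hb, add_smul]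

noncomputable instance : HopfAlgebra k (U k p) where
  antipode := S
  mul_antipode_rTensor_comul := by
    ext a
    have h := left_all a 1
    rw [mul_one] at h
    simp only [LinearMap.comp_apply, comul_eq, counit_eq, h, Algebra.linearMap_apply,
      Algebra.algebraMap_eq_smul_one]
    simp [Algebra.TensorProduct.one_def, S_one]
  mul_antipode_lTensor_comul := by
    ext a
    have h := right_all a 1
    rw [one_mul] at h
    simp only [LinearMap.comp_apply, comul_eq, counit_eq, h, Algebra.linearMap_apply,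
      Algebra.algebraMap_eq_smul_one]
    simp [Algebra.TensorProduct.one_def, S_one]

variable (k) in
lemma toral {B : Type*} [Ring B] [Algebra k B] {a y : B} (h : Good p a y) :
    (a + y) ^ p = a + y := by
  obtain ⟨n, hn⟩ : ∃ n, p = n + 1 := ⟨p - 1, by have := hp.out.pos; omega⟩
  let E : B := ∑ i ∈ Finset.range p, ((i.factorial : k))⁻¹ • y ^ i
  have hf : ∀ i < p, ((i : ℕ) : k) ≠ 0 ∨ i = 0 := fun i hi => by
    rcases Nat.eq_zero_or_pos i with h0 | h0
    · exact Or.inr h0
    · exact Or.inl fun e => Nat.not_dvd_of_pos_of_lt h0 hi ((CharP.cast_eq_zero_iff k p i).1 e)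
  have e1 : ∑ i ∈ Finset.range p, ((i.factorial : k))⁻¹ • i • y ^ i = E * y := by
    have e2 : E * y = ∑ i ∈ Finset.range n, ((i.factorial : k))⁻¹ • y ^ (i + 1) := by
      simp only [E, Finset.sum_mul, smul_mul_assoc, ← pow_succ]
      rw [hn, Finset.sum_range_succ, ← hn, h.xx, smul_zero, add_zero]
    rw [e2]
    conv_lhs => rw [hn, Finset.sum_range_succ']
    simp only [zero_smul, smul_zero, add_zero]
    refine Finset.sum_congr rfl fun i hi => ?_
    have h1 : ((i + 1 : ℕ) : k) ≠ 0 :=
      (hf (i + 1) (by have := Finset.mem_range.1 hi; omega)).resolve_right (by omega)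
    rw [← Nat.cast_smul_eq_nsmul k, smul_smul, Nat.factorial_succ, Nat.cast_mul, mul_inv,
      mul_comm _ ((i.factorial : k))⁻¹, mul_assoc, inv_mul_cancel₀ h1, mul_one]
  have e3 : a * E = E * (a + y) := by
    rw [mul_add, ← e1]
    simp only [E, Finset.mul_sum, Finset.sum_mul, mul_smul_comm, smul_mul_assoc, comm_pow h.tx,
      smul_add, Finset.sum_add_distrib]
  have hu : IsUnit E := by
    have e4 : E = 1 + y * ∑ i ∈ Finset.range n, (((i + 1).factorial : k))⁻¹ • y ^ i := by
      simp only [E]
      rw [hn, Finset.sum_range_succ', add_comm]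
      simp [Finset.mul_sum, pow_succ']
    rw [e4]
    refine IsNilpotent.isUnit_one_add (Commute.isNilpotent_mul_right ?_ ⟨p, h.xx⟩)
    exact Commute.sum_right _ _ _ fun i _ => ((Commute.refl y).pow_right i).smul_right _
  have e5 : a ^ p * E = E * (a + y) ^ p := SemiconjBy.pow_right (show SemiconjBy E _ _ from e3.symm) p |>.symm
  rw [h.tt, e3] at e5
  exact (hu.mul_left_cancel e5).symm

/-- The toral elements. -/
noncomputable def T (c : k) : U k p := t k p + c • x k p

lemma T_pow (c : k) : (T c : U k p) ^ p = T c := by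
  have g := good_tx k p
  refine toral k ⟨g.tt, by rw [smul_pow, g.xx, smul_zero], ?_⟩
  rw [mul_smul_comm, smul_mul_assoc, g.tx, smul_add]

lemma comul_T (c : k) :
    Coalgebra.comul (R := k) (T c : U k p) = T c ⊗ₜ[k] 1 + 1 ⊗ₜ[k] T c := by
  simp only [T, comul_eq, map_add, map_smul, lift_t, lift_x, add_tmul, tmul_add, smul_add,
    tmul_smul, smul_tmul']
  abel

/-- The projections. -/
noncomputable def P (c : k) : U k p := 1 - T c ^ (p - 1)

lemma T_mul_P (c : k) : (T c : U k p) * P c = 0 := by
  rw [P, mul_sub, mul_one, ← pow_succ', Nat.sub_add_cancel hp.out.pos, T_pow, sub_self]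

lemma P_mul_T (c : k) : (P c : U k p) * T c = 0 := by
  rw [P, sub_mul, one_mul, ← pow_succ, Nat.sub_add_cancel hp.out.pos, T_pow, sub_self]

lemma P_mul_P (c : k) : (P c : U k p) * P c = P c := by
  obtain ⟨n, hn⟩ : ∃ n, p - 1 = n + 1 := ⟨p - 2, by have := hp.out.two_le; omega⟩
  conv_lhs => rw [P, mul_sub, mul_one, ← P, hn, pow_succ', ← mul_assoc, P_mul_T, zero_mul, sub_zero]

lemma pow_l {B : Type*} [Ring B] {a b z : B} (h : Commute a b) (hz : b * z = 0) (n : ℕ) :
    (a + b) ^ n * z = a ^ n * z := by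
  induction n with
  | zero => simp
  | succ n ih =>
    rw [pow_succ', mul_assoc, ih, add_mul, ← mul_assoc b, (h.symm.pow_right n).eq, mul_assoc, hz,
      mul_zero, add_zero, pow_succ', mul_assoc]

lemma pow_r {B : Type*} [Ring B] {a b z : B} (h : Commute a b) (hz : z * b = 0) (n : ℕ) :
    z * (a + b) ^ n = z * a ^ n := by
  induction n with
  | zero => simp
  | succ n ih =>
    rw [pow_succ, ← mul_assoc, ih, mul_add, mul_assoc z _ b, (h.pow_left n).eq, ← mul_assoc, hz,
      zero_mul, add_zero, pow_succ, mul_assoc]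

lemma comul_P (c : k) : Coalgebra.comul (R := k) (P c : U k p) =
    1 - (T c ⊗ₜ[k] 1 + 1 ⊗ₜ[k] T c) ^ (p - 1) := by
  rw [← comul_T]
  simp only [P, comul_eq, map_sub, map_one, map_pow]

omit [CharP k p] in
lemma good_matrix : Good p (!![1, 0; 0, 0] : Matrix (Fin 2) (Fin 2) k) !![0, 1; 0, 0] where
  tt := IsIdempotentElem.pow_eq
    (by ext i j; fin_cases i <;> fin_cases j <;> simp) hp.out.ne_zero
  xx := pow_eq_zero_of_le hp.out.two_le
    (by rw [sq]; ext i j; fin_cases i <;> fin_cases j <;> simp)
  tx := by ext i j; fin_cases i <;> fin_cases j <;> simp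

omit [CharP k p] in
lemma rep_P (c : k) : lift (k := k) (good_matrix (k := k) (p := p)) (P c) = !![0, -c; 0, 1] := by
  have e : lift (k := k) (good_matrix (k := k) (p := p)) (T c) = !![1, c; 0, 0] := by
    ext i j
    fin_cases i <;> fin_cases j <;> simp [T]
  have hi : IsIdempotentElem (!![1, c; 0, 0] : Matrix (Fin 2) (Fin 2) k) := by
    ext i j
    fin_cases i <;> fin_cases j <;> simp
  rw [P, map_sub, map_one, map_pow, e, hi.pow_eq (by have := hp.out.two_le; omega)]
  ext i j
  fin_cases i <;> fin_cases j <;> simp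

omit [CharP k p] in
lemma P_injective : Function.Injective (P : k → U k p) := by
  intro c c' h
  have e := rep_P (p := p) c
  rw [h, rep_P] at e
  simpa using (congrFun (congrFun e 0) 1).symm

omit [CharP k p] in
lemma P_ne_zero (c : k) : (P c : U k p) ≠ 0 := by
  intro h
  have e := rep_P (p := p) c
  rw [h, map_zero] at e
  simpa using congrFun (congrFun e 1) 1

theorem infinite_set [Infinite k] :
    {Q : U k p | Q ≠ 0 ∧ Q * Q = Q ∧
      Coalgebra.comul (R := k) Q * (1 ⊗ₜ[k] Q) = Q ⊗ₜ[k] Q ∧
      (1 ⊗ₜ[k] Q) * Coalgebra.comul (R := k) Q = Q ⊗ₜ[k] Q ∧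
      Coalgebra.comul (R := k) Q * (Q ⊗ₜ[k] 1) = Q ⊗ₜ[k] Q ∧
      (Q ⊗ₜ[k] 1) * Coalgebra.comul (R := k) Q = Q ⊗ₜ[k] Q}.Infinite := by
  refine Set.infinite_of_injective_forall_mem P_injective fun c =>
    ⟨P_ne_zero c, P_mul_P c, ?_, ?_, ?_, ?_⟩
  · rw [comul_P, sub_mul, pow_l (comm_tm _ _) (by simp [T_mul_P])]
    conv_rhs => rw [P, sub_tmul, ← P]
    simp [Algebra.TensorProduct.tmul_pow]
  · rw [comul_P, mul_sub, pow_r (comm_tm _ _) (by simp [P_mul_T])]
    conv_rhs => rw [P, sub_tmul, ← P]
    simp [Algebra.TensorProduct.tmul_pow]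
  · rw [comul_P, sub_mul, add_comm, pow_l (comm_tm _ _).symm (by simp [T_mul_P])]
    conv_rhs => rw [P, tmul_sub, ← P]
    simp [Algebra.TensorProduct.tmul_pow]
  · rw [comul_P, mul_sub, add_comm, pow_r (comm_tm _ _).symm (by simp [P_mul_T])]
    conv_rhs => rw [P, tmul_sub, ← P]
    simp [Algebra.TensorProduct.tmul_pow]

end Pool.Agent.Work.MP_2a0e18_al.AllP
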